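import Pool.Agent.H47S.Xba8092FullDim

namespace Pool.Agent.Results.MP_ba8092_nt.QOne

open Finset Filter Topology
open Pool.Agent.Results.MP_ba8092_nt.FullDim

theorem result (q : ℕ → ℕ) (hq : ∀ n, 2 ≤ q n) (hqi : Tendsto q atTop atTop)
    (hd : ∀ k, 1 ≤ k → Tendsto (Qsum q k) atTop atTop) :
    dimH {x : ℝ | (∃ E, IsExpansion q x E ∧ ∀ k, 1 ≤ k → NormalOrder q E k) ∧
      ¬ DistNormal q x} = 1 :=
  (parts q hq hqi hd).1

end Pool.Agent.Results.MP_ba8092_nt.QOne
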